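import Pool.Agent.Q41.CT.Example

/-!
# Modules whose tensor product with their canonical dual is the canonical module

For every field `k` there is an Artinian local `k`-algebra `R` (so `R` is Cohen-Macaulay) with
canonical module `Ω` and a finitely generated `R`-module `M` with `M ⊗_R Hom_R(M, Ω) ≅ Ω`,
although `M` is isomorphic neither to `R` nor to `Ω`. So the answer to the question of
Celikbas, Goto, Takahashi and Taniguchi is negative.

The example is `R = A ⊗_k B`, `A = B = k[x, y] / (x, y) ^ 2`, and `M = Hom_B(R, B) = ω_A ⊗_k B`.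
-/

namespace Pool.Agent.Results.MP_941405_ag.TensorDual

open TensorProduct Pool.Agent.Q41.CT

theorem result (k : Type) [Field k] :
    ∃ (R : Type) (_ : CommRing R) (_ : IsLocalRing R) (_ : IsArtinianRing R) (_ : Algebra k R)
      (M Ω : Type) (_ : AddCommGroup M) (_ : Module R M) (_ : AddCommGroup Ω) (_ : Module R Ω),
      Module.Finite R M ∧ IsCanonical R Ω ∧
      Nonempty ((M ⊗[R] (M →ₗ[R] Ω)) ≃ₗ[R] Ω) ∧
      IsEmpty (M ≃ₗ[R] R) ∧ IsEmpty (M ≃ₗ[R] Ω) :=
  ⟨Ex.R k, inferInstance, inferInstance, inferInstance, inferInstance, Ex.M k, Ex.Om k,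
    inferInstance, inferInstance, inferInstance, inferInstance, Ex.finite_M k, Ex.canonical k,
    Coind.ev_equiv, Ex.not_iso_ring k, Ex.not_iso_can k⟩

end Pool.Agent.Results.MP_941405_ag.TensorDual
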